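import Pool.Agent.Y206.Q.Stm
import Pool.Agent.Y206.G.Sys2

set_option autoImplicit false
open MvPolynomial
open Pool.Agent.Helper947.Geo

namespace Pool.Agent.Y248.QG

open Pool.Agent.Y206.Q Pool.Agent.Y206.G

theorem lf_irred {d : ℕ} {η : Fin d → ℂ} (hη : η ≠ 0) : Irreducible (lf η) := by
  have hne := lf_ne hη
  have h1 : (lf η).totalDegree = 1 := (lf_homog η).totalDegree hne
  refine irreducible_of_totalDegree_eq_one h1 ?_
  intro c hc
  rw [isUnit_iff_ne_zero]
  rintro rfl
  apply hne
  ext i
  rw [coeff_zero]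
  exact zero_dvd_iff.1 (hc i)

theorem eval_dt (y P : Fin 2 → ℂ) : eval P (lf ![-y 1, y 0]) = dt y P := by
  rw [eval_lf]
  simp [dt, dotProduct, Fin.sum_univ_two]
  ring

theorem dt_zero {y P : Fin 2 → ℂ} (hy : y ≠ 0) (h : dt y P = 0) : ∃ t : ℂ, P = t • y := by
  simp only [dt] at h
  by_cases h0 : y 0 = 0
  · have h1 : y 1 ≠ 0 := by
      intro h1
      apply hy
      funext i
      fin_cases i
      · exact h0
      · exact h1
    refine ⟨P 1 / y 1, ?_⟩
    rw [h0, zero_mul, zero_sub, neg_eq_zero] at h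
    have h2 := (mul_eq_zero.mp h).resolve_left h1
    funext i
    fin_cases i
    · simp [h0, h2]
    · simp [h1]
  · refine ⟨P 0 / y 0, ?_⟩
    funext i
    fin_cases i
    · simp [h0]
    · have : y 0 * P 1 = y 1 * P 0 := by linear_combination h
      simp only [Fin.mk_one, Pi.smul_apply, smul_eq_mul]
      field_simp
      linear_combination this

theorem vec_ne {y : Fin 2 → ℂ} (hy : y ≠ 0) : (![-y 1, y 0] : Fin 2 → ℂ) ≠ 0 := by
  intro h
  apply hy
  have h0 := congrFun h 0
  have h1 := congrFun h 1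
  simp at h0 h1
  funext i
  fin_cases i
  · exact h1
  · exact h0

theorem relprime_lf {y z : Fin 2 → ℂ} (hy : y ≠ 0) (h : dt y z ≠ 0) :
    IsRelPrime (lf ![-z 1, z 0]) (lf ![-y 1, y 0]) := by
  have hir := lf_irred (vec_ne hy)
  intro d hd1 hd2
  by_contra hu
  rcases hd2 with ⟨e, he⟩
  rcases hir.isUnit_or_isUnit he with h1 | h1
  · exact hu h1
  · obtain ⟨v, hv⟩ := h1
    have h2 : lf ![-y 1, y 0] ∣ lf ![-z 1, z 0] := by
      refine dvd_trans ?_ hd1
      refine ⟨((v⁻¹ : (MvPolynomial (Fin 2) ℂ)ˣ) : MvPolynomial (Fin 2) ℂ), ?_⟩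
      rw [he, ← hv, mul_assoc, Units.mul_inv, mul_one]
    obtain ⟨q, hq⟩ := h2
    have h3 := congrArg (eval y) hq
    rw [map_mul, eval_dt, eval_dt] at h3
    have h4 : dt y y = 0 := by simp only [dt]; ring
    rw [h4, zero_mul] at h3
    apply h
    simp only [dt] at h3 ⊢
    linear_combination -h3

theorem full (h1 : S_LINE) (h2 : S_PEEL) (h3 : S_BIN) : S_FULL := by
  classical
  intro K _ w a b F G hw hw0 hF hG hI ha hab η hη hn
  have hlam := lf_ne hη
  by_cases hd : lf η ∣ F
  · left
    have hc := h1 K w a b F G hw hw0 hF hG hI η hη hd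
    refine ⟨hc, ?_⟩
    obtain ⟨F', rfl⟩ := hd
    have hF' : F'.IsHomogeneous (a - 1) := by
      apply homog_cancel (lf_homog η) hlam
      rw [Nat.add_sub_cancel' ha]
      exact hF
    exact ⟨F', hF', h2 K w (a - 1) b F' G hw hw0 hF' hG η hη hI⟩
  · right
    obtain ⟨u, hui, huη, husp⟩ := exists_ker_basis η hη
    have hirr := lf_irred hη
    have hsub0 : ∀ g : MvPolynomial (Fin (2 + 1)) ℂ, sub u g = 0 → lf η ∣ g := by
      intro g hg
      apply dvd_of_vanish hirr
      intro P hP
      rw [eval_lf, dotProduct_comm] at hP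
      obtain ⟨x, rfl⟩ := husp P hP
      rw [← Pool.Agent.Y206.G.eval_sub, hg, map_zero]
    have hf0 : sub u F ≠ 0 := fun h => hd (hsub0 F h)
    have hfh := sub_hom u F a hF
    have hgh := sub_hom u G b hG
    have hcc : ∀ k, ∃ c : Fin 2 → ℂ, η ⬝ᵥ w k = 0 → ∑ j, c j • u j = w k := by
      intro k
      by_cases hk : η ⬝ᵥ w k = 0
      · rw [dotProduct_comm] at hk
        obtain ⟨c, hc⟩ := husp (w k) hk
        exact ⟨c, fun _ => hc⟩
      · exact ⟨0, fun h => absurd h hk⟩
    choose c hc using hcc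
    set S : Finset K := Finset.univ.filter (fun k => η ⬝ᵥ w k = 0) with hS
    have hScard : Nat.card {k // η ⬝ᵥ w k = 0} = S.card := by
      rw [Nat.card_eq_fintype_card, Fintype.card_subtype]
    have hSm : ∀ k ∈ S, ∑ j, c k j • u j = w k := fun k hk => hc k (by
      rw [hS, Finset.mem_filter] at hk; exact hk.2)
    have hc0 : ∀ k ∈ S, c k ≠ 0 := by
      intro k hk h0
      apply hw0 k
      rw [← hSm k hk, h0]
      simp
    have hdt : ∀ i ∈ S, ∀ j ∈ S, i ≠ j → dt (c i) (c j) ≠ 0 := by
      intro i hi j hj hij h0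
      obtain ⟨t, ht⟩ := dt_zero (hc0 i hi) h0
      have h4 := hw i j hij
      rw [LinearIndependent.pair_iff] at h4
      have h5 : w j = t • w i := by
        rw [← hSm i hi, ← hSm j hj, ht, Finset.smul_sum]
        refine Finset.sum_congr rfl fun l _ => ?_
        rw [Pi.smul_apply, smul_smul]
        rfl
      have h6 := h4 t (-1) (by rw [h5]; simp)
      have h7 := h6.2
      norm_num at h7
    have hFG : ∀ {g : MvPolynomial (Fin 3) ℂ}, g ∈ Ideal.span {F, G} → ∀ k ∈ S, ∀ t : ℂ,
        eval (t • c k) (sub u g) = 0 := by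
      intro g hg k hk t
      rw [Pool.Agent.Y206.G.eval_sub]
      have h4 := (hI g).mp hg k t
      rw [← h4]
      congr 2
      rw [← hSm k hk, Finset.smul_sum]
      refine Finset.sum_congr rfl fun l _ => ?_
      rw [Pi.smul_apply, smul_smul]
      rfl
    have hFm : F ∈ Ideal.span {F, G} := Ideal.subset_span (by simp)
    have hGm : G ∈ Ideal.span {F, G} := Ideal.subset_span (by simp)
    have hn' : a ≤ S.card := by rw [← hScard]; exact hn
    obtain ⟨S', hS', hcard⟩ := Finset.exists_subset_card_eq hn'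
    obtain ⟨γ, hγ⟩ := h3 (sub u F) K S' c (by rw [hcard]; exact hfh)
      (fun i hi j hj => hdt i (hS' hi) j (hS' hj)) (fun i hi => hc0 i (hS' hi))
      (fun i hi => by
        have := hFG hFm i (hS' hi) 1
        rwa [one_smul] at this)
    have hγ0 : γ ≠ 0 := by
      rintro rfl
      apply hf0
      rw [hγ, C_0, zero_mul]
    have hSS : S' = S := by
      by_contra hne
      obtain ⟨k, hk, hk'⟩ : ∃ k ∈ S, k ∉ S' := by
        by_contra hcon
        push Not at hcon
        exact hne (Finset.Subset.antisymm hS' hcon)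
      have h4 := hFG hFm k hk 1
      rw [one_smul, hγ, map_mul, eval_C, map_prod] at h4
      have h5 := (mul_eq_zero.mp h4).resolve_left hγ0
      rw [Finset.prod_eq_zero_iff] at h5
      obtain ⟨i, hi, h6⟩ := h5
      rw [eval_dt] at h6
      exact hdt i (hS' hi) k hk (fun h => hk' (h ▸ hi)) h6
    rw [hSS] at hγ
    have hdvd : (∏ i ∈ S, lf ![-(c i 1), c i 0]) ∣ sub u G := by
      apply Finset.prod_dvd_of_isRelPrime
      · intro i hi j hj hij
        exact relprime_lf (hc0 j hj) (hdt j hj i hi (Ne.symm hij))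
      · intro i hi
        apply dvd_of_vanish (lf_irred (vec_ne (hc0 i hi)))
        intro P hP
        rw [eval_dt] at hP
        obtain ⟨t, rfl⟩ := dt_zero (hc0 i hi) hP
        exact hFG hGm i hi t
    obtain ⟨h', hh'⟩ := hdvd
    have hg : sub u G = sub u F * (C γ⁻¹ * h') := by
      rw [hh', hγ]
      have : (C γ * C γ⁻¹ : MvPolynomial (Fin 2) ℂ) = 1 := by
        rw [← C_mul, mul_inv_cancel₀ hγ0, C_1]
      linear_combination -(∏ i ∈ S, lf ![-(c i 1), c i 0]) * h' * this
    set h := C γ⁻¹ * h' with hh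
    have hhh : h.IsHomogeneous (b - a) := by
      apply homog_cancel hfh hf0
      rw [← hg, Nat.add_sub_cancel' hab]
      exact hgh
    have hz : ∀ l : Fin 2, ∃ ζ : Fin 3 → ℂ, ∀ j, u j ⬝ᵥ ζ = (Pi.single l 1 : Fin 2 → ℂ) j :=
      fun l => exists_coord u hui _
    choose ζ hζ using hz
    set v : Fin 3 → Fin 2 → ℂ := fun i l => ζ l i with hv
    have hleft : ∀ x : Fin 2 → ℂ, ∑ i, (∑ j, x j • u j) i • v i = x := by
      intro x
      funext l
      rw [Finset.sum_apply]
      have h4 : (∑ j, x j • u j) ⬝ᵥ ζ l = x l := by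
        rw [sum_dotProduct]
        simp only [smul_dotProduct, hζ, smul_eq_mul]
        simp [Pi.single_apply]
      rw [← h4]
      rfl
    set H := sub v h with hH
    have hHh : H.IsHomogeneous (b - a) := sub_hom v h _ hhh
    have hsH : sub u H = h := by
      apply MvPolynomial.funext
      intro x
      rw [Pool.Agent.Y206.G.eval_sub, hH, Pool.Agent.Y206.G.eval_sub, hleft]
    have hGH : lf η ∣ G - H * F := by
      apply hsub0
      rw [map_sub, map_mul, hsH, hg]
      ring
    obtain ⟨G', hG'⟩ := hGH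
    have hGHh : (G - H * F).IsHomogeneous b := by
      apply hG.sub
      have := hHh.mul hF
      rwa [Nat.sub_add_cancel hab] at this
    have hG'h : G'.IsHomogeneous (b - 1) := by
      apply homog_cancel (lf_homog η) hlam
      rw [← hG', Nat.add_sub_cancel' (ha.trans hab)]
      exact hGHh
    have hspan : Ideal.span {F, G} = Ideal.span {lf η * G', F} := by
      rw [← hG']
      apply le_antisymm
      · rw [Ideal.span_le]
        rintro x (rfl | rfl)
        · exact Ideal.subset_span (by simp)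
        · have h4 : x - H * F ∈ Ideal.span {x - H * F, F} := Ideal.subset_span (by simp)
          have h5 : F ∈ Ideal.span {x - H * F, F} := Ideal.subset_span (by simp)
          have h6 := Ideal.add_mem _ h4 (Ideal.mul_mem_left _ H h5)
          rw [sub_add_cancel] at h6
          exact h6
      · rw [Ideal.span_le]
        rintro x (rfl | rfl)
        · exact Ideal.sub_mem _ hGm (Ideal.mul_mem_left _ H hFm)
        · exact hFm
    have hI2 : IsVan w (Ideal.span {lf η * G', F}) := by rw [← hspan]; exact hI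
    have hGGh : (lf η * G').IsHomogeneous b := by rw [← hG']; exact hGHh
    have hcard2 := h1 K w b a (lf η * G') F hw hw0 hGGh hF hI2 η hη (dvd_mul_right _ _)
    refine ⟨hcard2, G', hG'h, ?_⟩
    have h7 := h2 K w (b - 1) a G' F hw hw0 hG'h hF η hη hI2
    rw [Set.pair_comm F G']
    exact h7

end Pool.Agent.Y248.QG
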